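import Pool.Agent.K7.H42.HL.Proofs

set_option autoImplicit false

/-!
# Hybrid binder logic with box, without satisfaction operators, over disjunctive bases

Satisfiability of the formulas built from atoms, nominals, state variables, diamonds, boxes,
binders and a finite set `B` of Boolean functions which generates the clone `V` of the
disjunctions and constants. Over all frames (and over the transitive frames) a formula is
satisfiable if and only if it gets the value `1` when all atoms, nominals, variables and boxed
subformulas are replaced by `1` and diamonds and binders are deleted. Hence satisfiability is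
first-order definable, in particular decidable in `AC⁰`.
-/

namespace Pool.Agent.Results.MP_ccbe9b_lc.DisjunctiveBases

open FirstOrder Pool.Agent.K7.H42.HL

universe u

/-- Let `B` be a finite set of Boolean functions with `[B] = V`.

* A formula is satisfiable over all frames if and only if it is satisfiable over the transitive
  frames if and only if its value is `1`.
* Formulas as labelled trees: satisfiability is defined by a first-order sentence, and is decided
  by circuits of constant depth and polynomial size, for every numbering of the nodes.
* Formulas as words: if every argument of every function of `B` is essential (as for the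
  disjunction and the constants), then the same holds for words in Polish notation; this
  representation is one-to-one. -/
theorem result :
    (∀ B : Base, GeneratesV B →
      (∀ φ : Fml B, (Satisfiable AllFrames.{u} φ ↔ val φ = true) ∧
        (Satisfiable TransFrames.{u} φ ↔ val φ = true)) ∧
      (∀ φ : Fml B, Finite (Occ φ)) ∧
      (∃ σ : (treeLang B).Sentence, ∀ φ : Fml B,
        Language.Sentence.Realize (Occ φ) σ ↔ Satisfiable AllFrames.{u} φ) ∧
      (∃ C : (m : ℕ) → Circuit (TreeIn B m), ConstDepthPolySize C ∧
        ∀ (φ : Fml B) (m : ℕ) (e : Occ φ ≃ Fin m),
          (C m).eval (treeInput e) ↔ Satisfiable AllFrames.{u} φ) ∧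
      Function.Injective (word (B := B)) ∧
      ((∀ (i : B.ι) (k : Fin (B.ar i)), Essential (B.fn i) k) →
        (∃ σ : (wordLang B).Sentence, ∀ φ : Fml B,
          Language.Sentence.Realize (Pos (word φ)) σ ↔ Satisfiable AllFrames.{u} φ) ∧
        (∃ C : (n : ℕ) → Circuit (Fin n × Tok B), ConstDepthPolySize C ∧
          ∀ φ : Fml B, (C (word φ).length).eval (wordInput (word φ)) ↔
            Satisfiable AllFrames.{u} φ))) ∧
    (GeneratesV orBase ∧ ∀ (i : orBase.ι) (k : Fin (orBase.ar i)), Essential (orBase.fn i) k) := by
  refine ⟨fun B hV => ?_, fun _ _ _ => Iff.rfl, ?_⟩
  · have hB : ∀ i, Disj (B.fn i) := disj_fn hV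
    refine ⟨fun φ => ⟨satisfiable_all hB φ, satisfiable_trans hB φ⟩, finite_occ,
      ⟨treeSentence B, fun φ => ?_⟩, ⟨treeCircuit B, treeCircuit_small B, fun φ m e => ?_⟩,
      word_injective, fun hE => ⟨⟨wordSentence B, fun φ => ?_⟩,
        ⟨wordCircuit B, wordCircuit_small B, fun φ => ?_⟩⟩⟩
    · rw [treeSentence_iff, satisfiable_all hB, treeCond_iff hB]
    · rw [treeCircuit_eval, satisfiable_all hB, treeCond_iff hB]
    · rw [wordSentence_iff, satisfiable_all hB, word_iff hB hE]
    · rw [wordCircuit_eval, satisfiable_all hB, word_iff hB hE]
  · rintro (_ | _ | _) k
    · match k with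
      | (0 : Fin 2) =>
        exact ⟨![true, false], ![false, false], by decide, by decide⟩
      | (1 : Fin 2) =>
        exact ⟨![false, true], ![false, false], by decide, by decide⟩
    · exact k.elim0
    · exact k.elim0

end Pool.Agent.Results.MP_ccbe9b_lc.DisjunctiveBases
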